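import Pool.Agent.Lib.MP_87cb84_nt.Base

set_option autoImplicit false

/-!
# Product equals `n` times sum: at primes the number of solutions is `q ^ o(1)` on average
-/

namespace Pool.Agent.Results.MP_87cb84_nt.PrimeAverage

open Pool.Agent.Lib.MP_87cb84_nt

/-- `x = (x_1, ..., x_n)` is a non-decreasing `n`-tuple of positive integers with
`x_1 * ... * x_n = n * (x_1 + ... + x_n)`. -/
structure IsSol (n : ℕ) (x : Fin n → ℕ) : Prop where
  pos : ∀ i, 0 < x i
  mono : Monotone x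
  eq : ∏ i, x i = n * ∑ i, x i

/-- The number `f(n)` of solutions (`Set.ncard` is the true cardinality, as the set of solutions is
finite for `n ≥ 2` by the first part of `result`). -/
noncomputable def f (n : ℕ) : ℕ := {x : Fin n → ℕ | IsSol n x}.ncard

/-- the multiset of the entries -/
def toMul {n : ℕ} (x : Fin n → ℕ) : Multiset ℕ := Multiset.map x Finset.univ.val

theorem toMul_eq {n : ℕ} (x : Fin n → ℕ) : toMul x = (List.ofFn x : Multiset ℕ) := by
  rw [toMul, Fin.univ_def, List.ofFn_eq_map]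
  simp

theorem toMul_inj {n : ℕ} {x y : Fin n → ℕ} (hx : Monotone x) (hy : Monotone y)
    (h : toMul x = toMul y) : x = y := by
  rw [toMul_eq, toMul_eq, Multiset.coe_eq_coe] at h
  exact List.ofFn_injective (h.eq_of_pairwise' hx.sortedLE_ofFn.pairwise hy.sortedLE_ofFn.pairwise)

theorem toMul_card {n : ℕ} (x : Fin n → ℕ) : Multiset.card (toMul x) = n := by
  simp [toMul]

theorem toMul_spec {n : ℕ} {x : Fin n → ℕ} (h : IsSol n x) :
    Multiset.card (toMul x) = n ∧ (∀ a ∈ toMul x, 0 < a) ∧ (toMul x).prod = n * (toMul x).sum := by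
  refine ⟨toMul_card x, ?_, ?_⟩
  · intro a ha
    rw [toMul, Multiset.mem_map] at ha
    obtain ⟨i, _, rfl⟩ := ha
    exact h.pos i
  · exact h.eq

theorem sum_le_card_mul (t : Multiset ℕ) (B : ℕ) (h : ∀ a ∈ t, a ≤ B) : t.sum ≤ Multiset.card t * B := by
  have := Multiset.sum_le_card_nsmul t B h
  simpa using this

theorem le_prod_of_mem (t : Multiset ℕ) (hp : ∀ a ∈ t, 0 < a) {b : ℕ} (hb : b ∈ t) : b ≤ t.prod := by
  apply Nat.le_of_dvd
  · apply Nat.pos_of_ne_zero
    intro h0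
    rw [Multiset.prod_eq_zero_iff] at h0
    exact absurd (hp 0 h0) (lt_irrefl 0)
  · exact Multiset.dvd_prod hb

/-- all the entries of a solution are at most `n ^ 4`. -/
theorem entries_le (n : ℕ) (hn : 2 ≤ n) (s : Multiset ℕ) (hcard : Multiset.card s = n)
    (hpos : ∀ a ∈ s, 0 < a) (hs : s.prod = n * s.sum) : ∀ a ∈ s, a ≤ n ^ 4 := by
  -- the largest entry
  have hne : s ≠ 0 := by
    intro h; rw [h] at hcard; simp at hcard; omega
  obtain ⟨a, ha, hmax⟩ : ∃ a ∈ s, ∀ b ∈ s, b ≤ a := by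
    have hne' : s.toFinset.Nonempty := by
      rw [Finset.nonempty_iff_ne_empty]
      intro h
      exact hne (Multiset.toFinset_eq_empty.mp h)
    refine ⟨s.toFinset.max' hne', ?_, ?_⟩
    · exact Multiset.mem_toFinset.mp (Finset.max'_mem _ _)
    · intro b hb
      exact Finset.le_max' _ _ (Multiset.mem_toFinset.mpr hb)
  obtain ⟨t, rfl⟩ := Multiset.exists_cons_of_mem ha
  have ha0 : 0 < a := hpos a ha
  have htpos : ∀ b ∈ t, 0 < b := fun b hb => hpos b (Multiset.mem_cons_of_mem hb)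
  rw [Multiset.card_cons] at hcard
  rw [Multiset.prod_cons, Multiset.sum_cons] at hs
  have hsum1 : t.sum ≤ Multiset.card t * a :=
    sum_le_card_mul t a (fun b hb => hmax b (Multiset.mem_cons_of_mem hb))
  have hP : t.prod ≤ n ^ 2 := by
    have h1 : a * t.prod ≤ a * (n ^ 2) := by
      rw [hs]
      calc n * (a + t.sum) ≤ n * (a + Multiset.card t * a) := by gcongr
        _ = n * ((Multiset.card t + 1) * a) := by ring
        _ = a * n ^ 2 := by rw [hcard]; ring
    exact Nat.le_of_mul_le_mul_left h1 ha0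
  have hentry : ∀ b ∈ t, b ≤ n ^ 2 := fun b hb => (le_prod_of_mem t htpos hb).trans hP
  have hsum2 : t.sum ≤ n * n ^ 2 :=
    (sum_le_card_mul t (n ^ 2) hentry).trans (by gcongr; omega)
  have htsum : 0 < t.sum := by
    have hcard2 : 0 < Multiset.card t := by omega
    obtain ⟨b, hb⟩ := Multiset.card_pos_iff_exists_mem.mp hcard2
    exact lt_of_lt_of_le (htpos b hb) (Multiset.single_le_sum (fun _ _ => Nat.zero_le _) b hb)
  have hgt : n < t.prod := by
    by_contra hcon
    push Not at hcon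
    have h1 : a * t.prod ≤ a * n := Nat.mul_le_mul_left a hcon
    rw [hs] at h1
    have h2 : 0 < n * t.sum := Nat.mul_pos (by omega) htsum
    nlinarith
  have ha4 : a ≤ n ^ 4 := by
    obtain ⟨d, hd⟩ : ∃ d, t.prod = n + 1 + d := ⟨t.prod - (n + 1), by omega⟩
    rw [hd] at hs
    have h1 : a + a * d = n * t.sum := by nlinarith
    calc a ≤ n * t.sum := by rw [← h1]; exact Nat.le_add_right _ _
      _ ≤ n * (n * n ^ 2) := by gcongr
      _ = n ^ 4 := by ring
  intro b hb
  exact (hmax b hb).trans ha4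

theorem sol_finite (n : ℕ) (hn : 2 ≤ n) : {x : Fin n → ℕ | IsSol n x}.Finite := by
  have hfin : (Set.univ.pi (fun _ : Fin n => Set.Iic (n ^ 4))).Finite :=
    Set.Finite.pi' (fun _ => Set.finite_Iic _) |>.subset (by
      intro x hx i
      exact hx i (Set.mem_univ i))
  refine hfin.subset ?_
  intro x hx i _
  obtain ⟨h1, h2, h3⟩ := toMul_spec hx
  apply entries_le n hn (toMul x) h1 h2 h3
  rw [toMul, Multiset.mem_map]
  exact ⟨i, Finset.mem_univ_val i, rfl⟩

/-- the multisets of the solutions -/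
noncomputable def T (n : ℕ) : Finset (Multiset ℕ) :=
  if h : 2 ≤ n then (sol_finite n h).toFinset.image toMul else ∅

theorem T_card (n : ℕ) (hn : 2 ≤ n) : (T n).card = f n := by
  rw [T, dif_pos hn, Finset.card_image_of_injOn, f, Set.ncard_eq_toFinset_card _ (sol_finite n hn)]
  intro x hx y hy hxy
  simp only [Set.Finite.coe_toFinset, Set.mem_setOf_eq] at hx hy
  exact toMul_inj hx.mono hy.mono hxy

theorem T_spec (n : ℕ) : ∀ s ∈ T n,
    Multiset.card s = n ∧ (∀ x ∈ s, 0 < x) ∧ s.prod = n * s.sum := by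
  intro s hs
  by_cases hn : 2 ≤ n
  · rw [T, dif_pos hn, Finset.mem_image] at hs
    obtain ⟨x, hx, rfl⟩ := hs
    simp only [Set.Finite.mem_toFinset, Set.mem_setOf_eq] at hx
    exact toMul_spec hx
  · rw [T, dif_neg hn] at hs
    exact absurd hs (Finset.notMem_empty s)

theorem key (ε : ℝ) (hε : 0 < ε) : ∃ C : ℝ, ∀ P : Finset ℕ, (∀ q ∈ P, q.Prime) →
    ∑ q ∈ P, (f q : ℝ) * (q : ℝ) ^ (-(1 + ε)) ≤ C := by
  obtain ⟨C, hC⟩ := sum_primes_bound ε hε
  refine ⟨C, fun P hP => ?_⟩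
  have := hC P T hP (fun q _ => T_spec q)
  refine le_trans (le_of_eq ?_) this
  apply Finset.sum_congr rfl
  intro q hq
  rw [T_card q (hP q hq).two_le]

theorem average (ε : ℝ) (hε : 0 < ε) : ∃ C : ℝ, ∀ N : ℕ,
    ∑ q ∈ (Finset.Icc 1 N).filter Nat.Prime, (f q : ℝ) ≤ C * (N : ℝ) ^ (1 + ε) := by
  obtain ⟨C, hC⟩ := key ε hε
  refine ⟨C, fun N => ?_⟩
  have h := hC ((Finset.Icc 1 N).filter Nat.Prime) (fun q hq => (Finset.mem_filter.mp hq).2)
  calc ∑ q ∈ (Finset.Icc 1 N).filter Nat.Prime, (f q : ℝ)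
      ≤ ∑ q ∈ (Finset.Icc 1 N).filter Nat.Prime,
          ((f q : ℝ) * (q : ℝ) ^ (-(1 + ε))) * (N : ℝ) ^ (1 + ε) := by
        apply Finset.sum_le_sum
        intro q hq
        rw [Finset.mem_filter, Finset.mem_Icc] at hq
        have hq0 : (0 : ℝ) < q := by exact_mod_cast hq.2.pos
        have hqN : (q : ℝ) ≤ N := by exact_mod_cast hq.1.2
        have h1 : (q : ℝ) ^ (1 + ε) ≤ (N : ℝ) ^ (1 + ε) :=
          Real.rpow_le_rpow hq0.le hqN (by linarith)
        have h2 : (q : ℝ) ^ (-(1 + ε)) * (q : ℝ) ^ (1 + ε) = 1 := by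
          rw [← Real.rpow_add hq0]
          simp
        have h3 : (0 : ℝ) ≤ (q : ℝ) ^ (-(1 + ε)) := by positivity
        calc (f q : ℝ) = (f q : ℝ) * ((q : ℝ) ^ (-(1 + ε)) * (q : ℝ) ^ (1 + ε)) := by
              rw [h2, mul_one]
          _ ≤ (f q : ℝ) * ((q : ℝ) ^ (-(1 + ε)) * (N : ℝ) ^ (1 + ε)) := by gcongr
          _ = _ := by ring
    _ = (∑ q ∈ (Finset.Icc 1 N).filter Nat.Prime, (f q : ℝ) * (q : ℝ) ^ (-(1 + ε))) *
          (N : ℝ) ^ (1 + ε) := by
        rw [Finset.sum_mul]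
    _ ≤ C * (N : ℝ) ^ (1 + ε) := by
        apply mul_le_mul_of_nonneg_right h
        positivity

/-- The sum of `1 / q` over the primes `q` with `f q > q ^ ε` converges. -/
theorem exceptional (ε : ℝ) (hε : 0 < ε) :
    Summable ({q : ℕ | q.Prime ∧ (q : ℝ) ^ ε < (f q : ℝ)}.indicator
      (fun q : ℕ => (1 : ℝ) / q)) := by
  classical
  obtain ⟨C, hC⟩ := key ε hε
  apply summable_of_sum_range_le (c := C)
  · intro n
    apply Set.indicator_nonneg
    intro x _
    positivity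
  · intro n
    have hconv : ∑ i ∈ Finset.range n, ({q : ℕ | q.Prime ∧ (q : ℝ) ^ ε < (f q : ℝ)}.indicator
        (fun n : ℕ => (1 : ℝ) / n)) i =
        ∑ q ∈ (Finset.range n).filter (fun q : ℕ => q.Prime ∧ (q : ℝ) ^ ε < (f q : ℝ)),
          (1 : ℝ) / q := by
      rw [Finset.sum_filter]
      apply Finset.sum_congr rfl
      intro i _
      rw [Set.indicator_apply]
      rfl
    rw [hconv]
    refine le_trans ?_ (hC ((Finset.range n).filter
      (fun q : ℕ => q.Prime ∧ (q : ℝ) ^ ε < (f q : ℝ))) ?_)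
    · apply Finset.sum_le_sum
      intro q hq
      rw [Finset.mem_filter] at hq
      obtain ⟨_, hqp, h1⟩ := hq
      have hq0 : (0 : ℝ) < q := by exact_mod_cast hqp.pos
      have h2 : (1 : ℝ) / q = (q : ℝ) ^ ε * (q : ℝ) ^ (-(1 + ε)) := by
        rw [← Real.rpow_add hq0]
        have : ε + -(1 + ε) = -1 := by ring
        rw [this, Real.rpow_neg_one, one_div]
      rw [h2]
      exact mul_le_mul_of_nonneg_right h1.le (by positivity)
    · intro q hq
      exact (Finset.mem_filter.mp hq).2.1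

theorem infinitely_many (ε : ℝ) (hε : 0 < ε) :
    {q : ℕ | q.Prime ∧ (f q : ℝ) ≤ (q : ℝ) ^ ε}.Infinite := by
  classical
  intro hfin
  apply not_summable_one_div_on_primes
  have h1 := exceptional ε hε
  have h2 : Summable ({q : ℕ | q.Prime ∧ (f q : ℝ) ≤ (q : ℝ) ^ ε}.indicator
      (fun q : ℕ => (1 : ℝ) / q)) := by
    apply summable_of_ne_finset_zero (s := hfin.toFinset)
    intro b hb
    apply Set.indicator_of_notMem
    simpa using hb
  have h3 := h1.add h2
  refine h3.congr ?_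
  intro q
  simp only [Set.indicator_apply, Set.mem_setOf_eq]
  by_cases hq : q.Prime
  · by_cases h : (f q : ℝ) ≤ (q : ℝ) ^ ε
    · have h' : ¬ (q : ℝ) ^ ε < (f q : ℝ) := not_lt.mpr h
      simp [hq, h, h']
    · have h' : (q : ℝ) ^ ε < (f q : ℝ) := not_le.mp h
      simp [hq, h, h']
  · simp [hq]

/-- **Negative answer to Q1.**  Let `f n` be the number of non-decreasing `n`-tuples of positive
integers whose product is `n` times their sum.  The set of these tuples is finite for `n ≥ 2`.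
For every `ε > 0`: the sum of `f q` over the primes `q ≤ N` is at most `C * N ^ (1 + ε)`, the sum
of `1 / q` over the primes `q` with `f q > q ^ ε` converges, and there are infinitely many
primes `q` with `f q ≤ q ^ ε`.  In particular it is not true that some `ε > 0` and `n₀` satisfy
`f n > n ^ ε` for all `n ≥ n₀`. -/
theorem result :
    (∀ n : ℕ, 2 ≤ n → {x : Fin n → ℕ | IsSol n x}.Finite) ∧
    (∀ ε : ℝ, 0 < ε →
      (∃ C : ℝ, ∀ N : ℕ,
        ∑ q ∈ (Finset.Icc 1 N).filter Nat.Prime, (f q : ℝ) ≤ C * (N : ℝ) ^ (1 + ε)) ∧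
      Summable ({q : ℕ | q.Prime ∧ (q : ℝ) ^ ε < (f q : ℝ)}.indicator
        (fun q : ℕ => (1 : ℝ) / q)) ∧
      {q : ℕ | q.Prime ∧ (f q : ℝ) ≤ (q : ℝ) ^ ε}.Infinite) ∧
    ¬ (∃ ε : ℝ, 0 < ε ∧ ∃ n₀ : ℕ, ∀ n : ℕ, n₀ ≤ n → (n : ℝ) ^ ε < (f n : ℝ)) := by
  refine ⟨sol_finite, fun ε hε => ⟨average ε hε, exceptional ε hε, infinitely_many ε hε⟩, ?_⟩
  rintro ⟨ε, hε, n₀, h⟩
  obtain ⟨q, hq, hgt⟩ := (infinitely_many ε hε).exists_gt n₀
  exact absurd (h q hgt.le) (not_lt.mpr hq.2)

end Pool.Agent.Results.MP_87cb84_nt.PrimeAverage
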